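import Pool.Agent.T2h67.SG.BaireNeg

/-!
For every `d ≥ 2` there is a locally checkable labelling problem which has a Baire measurable
solution on the shift graph of `ℤᵈ`, but no Borel solution, and not even a measurable one (the
product measure of fair coins does not admit one).
-/

set_option autoImplicit false

namespace Pool.Agent.Results.MP_eb515b_lc.BaireNotBorelShift

open Pool.Agent.T2h67.SG

/-- For every `d ≥ 2` there is a locally checkable labelling problem for which the shift graph of
`ℤᵈ` has a Baire measurable solution, but neither a measurable nor a Borel solution. -/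
theorem result (d : ℕ) (hd : 2 ≤ d) :
    ∃ Q : LCL, HasBaireSolution d Q ∧ ¬ HasMeasurableSolution d Q ∧ ¬ HasBorelSolution d Q := by
  obtain ⟨M, κ, hκ, hκ'⟩ := exists_coloring d
  exact ⟨_, baire_pos hd hκ hκ', not_measurable hd M, not_borel hd M⟩

end Pool.Agent.Results.MP_eb515b_lc.BaireNotBorelShift
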